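import Mathlib

namespace Pool.Agent.Results.MP_a15e14_gt.Tri

abbrev E := EuclideanSpace ℝ (Fin 3)

/-- the z-axis -/
def Z : Set E := {x | x 0 = 0 ∧ x 1 = 0}

/-- distance to the boundary of G -/
noncomputable def d (x : E) : ℝ := √(x 0 ^ 2 + x 1 ^ 2)

/-- the point pair function of the complement of Z -/
noncomputable def p (x y : E) : ℝ := ‖x - y‖ / √(‖x - y‖ ^ 2 + 4 * d x * d y)

lemma d_pos {x : E} (h : x ∉ Z) : 0 < d x := by
  apply Real.sqrt_pos.2
  by_contra hh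
  exact h ⟨by nlinarith [sq_nonneg (x 0), sq_nonneg (x 1)],
    by nlinarith [sq_nonneg (x 0), sq_nonneg (x 1)]⟩

noncomputable def r (z : E) : E := !₂[-z 0, -z 1, z 2]

lemma r_dist (x z : E) : ‖x - r z‖ ≤ √(‖x - z‖ ^ 2 + 4 * d x * d z) := by
  apply Real.le_sqrt_of_sq_le
  have h : x 0 * z 0 + x 1 * z 1 ≤ d x * d z := by
    rw [d, d, ← Real.sqrt_mul (by positivity)]
    apply Real.le_sqrt_of_sq_le
    nlinarith [sq_nonneg (x 0 * z 1 - x 1 * z 0)]
  rw [EuclideanSpace.real_norm_sq_eq, EuclideanSpace.real_norm_sq_eq]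
  simp [Fin.sum_univ_three, r]
  nlinarith

lemma r_self (z : E) : ‖z - r z‖ = 2 * d z := by
  rw [← pow_left_inj₀ (norm_nonneg _) (by unfold d; positivity) two_ne_zero, mul_pow, d,
    Real.sq_sqrt (by positivity), EuclideanSpace.real_norm_sq_eq]
  simp [Fin.sum_univ_three, r]
  ring

lemma alg {a b c u v w P Q R : ℝ} (ha : 0 ≤ a) (hb : 0 ≤ b) (hc : 0 ≤ c) (hu : 0 < u)
    (hv : 0 < v) (hw : 0 < w) (hP : 0 < P) (hQ : 0 < Q) (hR : 0 < R)
    (eP : P ^ 2 = a ^ 2 + 4 * u * w) (eQ : Q ^ 2 = b ^ 2 + 4 * w * v)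
    (eR : R ^ 2 = c ^ 2 + 4 * u * v) (h : c * (2 * w) ≤ a * Q + b * P) : c / R ≤ a / P + b / Q := by
  rw [div_add_div _ _ hP.ne' hQ.ne', div_le_div_iff₀ hR (by positivity), mul_comm P b]
  set N := a * Q + b * P with hN
  have N0 : 0 ≤ N := by positivity
  rw [← pow_le_pow_iff_left₀ (by positivity) (by positivity) two_ne_zero]
  have h1 : (P * Q) ^ 2 ≤ N ^ 2 + 16 * u * v * w ^ 2 := by
    have e : 16 * u * v * w ^ 2 = (P ^ 2 - a ^ 2) * (Q ^ 2 - b ^ 2) := by rw [eP, eQ]; ring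
    have : 0 ≤ a * b * P * Q := by positivity
    rw [e, hN]; nlinarith [sq_nonneg (a * b)]
  have h2 := pow_le_pow_left₀ (by positivity) h 2
  have h3 := mul_le_mul_of_nonneg_left h1 (sq_nonneg c)
  have h4 := mul_le_mul_of_nonneg_left h2 (show 0 ≤ 4 * u * v by positivity)
  rw [mul_pow c, mul_pow N, eR]
  nlinarith

theorem result (x y z : E) (hx : x ∉ Z) (hy : y ∉ Z) (hz : z ∉ Z) : p x y ≤ p x z + p z y := by
  have h1 := d_pos hx
  have h2 := d_pos hy
  have h3 := d_pos hz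
  refine alg (norm_nonneg _) (norm_nonneg _) (norm_nonneg _) h1 h2 h3 (by positivity)
    (by positivity) (by positivity) (Real.sq_sqrt (by positivity)) (Real.sq_sqrt (by positivity))
    (Real.sq_sqrt (by positivity)) ?_
  have h := EuclideanGeometry.mul_dist_le_mul_dist_add_mul_dist x z y (r z)
  simp only [dist_eq_norm] at h
  rw [r_self] at h
  have a := r_dist x z
  have b := r_dist y z
  rw [norm_sub_rev y z, mul_right_comm 4 (d y)] at b
  exact h.trans (add_le_add (mul_le_mul_of_nonneg_left b (norm_nonneg _))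
    (mul_le_mul_of_nonneg_left a (norm_nonneg _)))

end Pool.Agent.Results.MP_a15e14_gt.Tri
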